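import Pool.Agent.H20.CI.Blk

/-! Counts of transcendence degrees for linear forms and hyperbolic blocks, relative to a linear
subspace with a reduced basis. -/

set_option autoImplicit false

namespace Pool.Agent.H20.CX

open Pool.Agent.H20.CI

section

variable {N w : ℕ} {π : Fin w → Fin (N + 1)} {u : Fin w → Fin (N + 1) → ℂ}

/-- the indices which are not pivots -/
def np (π : Fin w → Fin (N + 1)) : Finset (Fin (N + 1)) := Finset.univ \ Finset.univ.image π

lemma card_np (hπ : Function.Injective π) : (np π).card = N + 1 - w := by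
  unfold np
  rw [Finset.card_sdiff_of_subset (Finset.subset_univ _), Finset.card_univ, Fintype.card_fin,
    Finset.card_image_of_injective _ hπ, Finset.card_univ, Fintype.card_fin]

lemma le_of_inj (hπ : Function.Injective π) : w ≤ N + 1 := by
  have := Fintype.card_le_of_injective π hπ
  rwa [Fintype.card_fin, Fintype.card_fin] at this

/-- a linear form whose values on the basis are known -/
lemma row_mem (hπ : Function.Injective π) (huπ : ∀ a b, u a (π b) = if a = b then 1 else 0)
    {S : Set ℂ} (hu : ∀ a l, u a l ∈ cl S) {c : Fin (N + 1) → ℂ} (hc : ∀ l ∈ np π, c l ∈ cl S)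
    (hcu : ∀ a, ∑ l, c l * u a l ∈ cl S) (l : Fin (N + 1)) : c l ∈ cl S := by
  classical
  by_cases hl : l ∈ np π
  · exact hc l hl
  · obtain ⟨b, rfl⟩ : ∃ b, π b = l := by
      by_contra hcon
      push Not at hcon
      apply hl
      unfold np
      rw [Finset.mem_sdiff]
      refine ⟨Finset.mem_univ l, fun h => ?_⟩
      obtain ⟨b, -, hb⟩ := Finset.mem_image.1 h
      exact hcon b hb
    have h1 : ∑ l, c l * u b l = ∑ l ∈ np π, c l * u b l + c (π b) := by
      unfold np
      rw [← Finset.sum_sdiff (Finset.subset_univ (Finset.univ.image π)), Finset.sum_image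
        (fun x _ y _ h => hπ h), Finset.sum_eq_single (s := Finset.univ) b]
      · rw [huπ, if_pos rfl, mul_one]
      · intro a _ ha
        rw [huπ, if_neg (fun h => ha h.symm), mul_zero]
      · intro h
        exact absurd (Finset.mem_univ b) h
    have h2 : c (π b) = ∑ l, c l * u b l - ∑ l ∈ np π, c l * u b l := by rw [h1]; ring
    rw [h2]
    exact cl_sub (hcu b) (cl_sum _ _ fun l hl => cl_mul (hc l hl) (hu b l))

/-- a matrix whose products with the basis are known -/
lemma matrix_count' (hπ : Function.Injective π)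
    (huπ : ∀ a b, u a (π b) = if a = b then 1 else 0) {κ : Type} [Fintype κ]
    (A : κ → Fin (N + 1) → ℂ) : ∃ T : Finset ℂ, T.card ≤ Fintype.card κ * (N + 1 - w) ∧
      ∀ S : Set ℂ, (T : Set ℂ) ⊆ cl S → (∀ a l, u a l ∈ cl S) →
      (∀ k a, ∑ l, A k l * u a l ∈ cl S) → ∀ k l, A k l ∈ cl S := by
  classical
  refine ⟨((Finset.univ : Finset κ) ×ˢ np π).image (fun p => A p.1 p.2), ?_, ?_⟩
  · refine Finset.card_image_le.trans ?_
    rw [Finset.card_product, card_np hπ, Finset.card_univ]
  · intro S hT hu hA k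
    refine row_mem hπ huπ hu (fun l hl => hT ?_) (hA k)
    rw [Finset.mem_coe]
    exact Finset.mem_image.2 ⟨(k, l), Finset.mem_product.2 ⟨Finset.mem_univ k, hl⟩, rfl⟩

/-- the entries of a reduced basis -/
lemma basis_count (hπ : Function.Injective π)
    (huπ : ∀ a b, u a (π b) = if a = b then 1 else 0) :
    ∃ T : Finset ℂ, T.card ≤ w * (N + 1 - w) ∧ ∀ S : Set ℂ, (T : Set ℂ) ⊆ cl S →
      ∀ a l, u a l ∈ cl S := by
  classical
  refine ⟨((Finset.univ : Finset (Fin w)) ×ˢ np π).image (fun p => u p.1 p.2), ?_, ?_⟩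
  · refine Finset.card_image_le.trans ?_
    rw [Finset.card_product, card_np hπ, Finset.card_univ, Fintype.card_fin]
  · intro S hT a l
    by_cases hl : l ∈ np π
    · refine hT ?_
      rw [Finset.mem_coe]
      exact Finset.mem_image.2 ⟨(a, l), Finset.mem_product.2 ⟨Finset.mem_univ a, hl⟩, rfl⟩
    · obtain ⟨b, rfl⟩ : ∃ b, π b = l := by
        by_contra hcon
        push Not at hcon
        apply hl
        unfold np
        rw [Finset.mem_sdiff]
        refine ⟨Finset.mem_univ l, fun h => ?_⟩
        obtain ⟨b, -, hb⟩ := Finset.mem_image.1 h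
        exact hcon b hb
      rw [huπ]
      split
      · exact cl_one S
      · exact cl_zero S

end

/-- **The count for a hyperbolic block**, relative to a linear subspace of dimension `v + 1`. -/
theorem hyp_count' {N M c v : ℕ} {π : Fin (v + 1) → Fin (N + 1)}
    {u : Fin (v + 1) → Fin (N + 1) → ℂ} (hπ : Function.Injective π)
    (huπ : ∀ a b, u a (π b) = if a = b then 1 else 0) (hc : c ≤ M)
    (A : Fin (M + 1) → Fin (N + 1) → ℂ) (x : Fin c → Fin (M + 1) → ℂ)
    (H : Fin c → MvPolynomial (Fin (M + 1)) ℂ) (D : Fin c → ℕ) (n0 : ℕ) (hn0 : n0 ≠ 0)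
    (h : Fin (M + 1) → ℂ) (β : Fin (v + 1) → ℂ)
    (h1 : ∀ k a, ∑ l, A k l * u a l = β a * h k)
    (h3 : h ≠ 0 → ∀ t : ℂ, t ≠ 0 → ∀ i,
      MvPolynomial.eval (t • h) (H i) + ∑ p, x i p / n0 * (t • h) p ^ D i = 0) :
    ∃ T : Finset ℂ, T.card + (M * v + c) ≤ (M + 1) * (N + 1) + c * (M + 1) ∧ ∀ S : Set ℂ,
      (T : Set ℂ) ⊆ cl S → (∀ a l, u a l ∈ cl S) →
      (∀ i m, (H i).coeff m ∈ cl S) → (∀ k j, A k j ∈ cl S) ∧ (∀ i p, x i p ∈ cl S) := by
  classical
  obtain ⟨T1, hT1, hT1'⟩ := matrix_count' hπ huπ A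
  rw [Fintype.card_fin] at hT1
  obtain ⟨N', hN'⟩ : ∃ N', N = v + N' := ⟨N - v, by have := le_of_inj hπ; omega⟩
  have e0 : N + 1 - (v + 1) = N' := by omega
  rw [e0] at hT1
  have e1 : (M + 1) * (N + 1) = (M + 1) * N' + (M * v + M + v + 1) := by
    rw [hN']
    ring
  by_cases hh : h = 0 ∨ (∀ a, β a = 0)
  · refine ⟨T1 ∪ ((Finset.univ : Finset (Fin c)) ×ˢ (Finset.univ : Finset (Fin (M + 1)))).image
      (fun p => x p.1 p.2), ?_, ?_⟩
    · have e2 := Finset.card_union_le T1
        (((Finset.univ : Finset (Fin c)) ×ˢ (Finset.univ : Finset (Fin (M + 1)))).image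
          (fun p => x p.1 p.2))
      have e3 := Finset.card_image_le
        (s := (Finset.univ : Finset (Fin c)) ×ˢ (Finset.univ : Finset (Fin (M + 1))))
        (f := fun p => x p.1 p.2)
      rw [Finset.card_product, Finset.card_univ, Finset.card_univ, Fintype.card_fin,
        Fintype.card_fin] at e3
      rw [e1]
      omega
    · intro S hS hu _
      rw [Finset.coe_union, Set.union_subset_iff] at hS
      refine ⟨hT1' S hS.1 hu (fun k a => ?_), fun i p => hS.2 ?_⟩
      · rw [h1]
        rcases hh with hh | hh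
        · rw [hh, Pi.zero_apply, mul_zero]; exact cl_zero S
        · rw [hh, zero_mul]; exact cl_zero S
      · rw [Finset.mem_coe]
        exact Finset.mem_image.2 ⟨(i, p), Finset.mem_product.2
          ⟨Finset.mem_univ i, Finset.mem_univ p⟩, rfl⟩
  · push Not at hh
    obtain ⟨hh0, a0, ha0⟩ := hh
    -- normalisation
    obtain ⟨h', hh'⟩ : ∃ h' : Fin (M + 1) → ℂ, h' = β a0 • h := ⟨_, rfl⟩
    obtain ⟨β', hβ'⟩ : ∃ β' : Fin (v + 1) → ℂ, β' = fun a => β a / β a0 := ⟨_, rfl⟩
    have h1' : ∀ k a, ∑ l, A k l * u a l = β' a * h' k := by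
      intro k a
      rw [h1, hh', hβ', Pi.smul_apply, smul_eq_mul]
      field_simp
    have hβ1 : β' a0 = 1 := by
      rw [hβ']
      exact div_self ha0
    have h3' : ∀ i, MvPolynomial.eval h' (H i) + ∑ p, x i p / n0 * h' p ^ D i = 0 := by
      rw [hh']
      exact h3 hh0 _ ha0
    have hh0' : h' ≠ 0 := by
      rw [hh']
      exact smul_ne_zero ha0 hh0
    obtain ⟨p0, hp0⟩ := Function.ne_iff.1 hh0'
    have hp0' : h' p0 ≠ 0 := hp0
    set T2 : Finset ℂ := ((Finset.univ : Finset (Fin c)) ×ˢ
      ((Finset.univ : Finset (Fin (M + 1))).erase p0)).image (fun p => x p.1 p.2) with hT2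
    have hT2c : T2.card ≤ c * M := by
      refine Finset.card_image_le.trans ?_
      rw [Finset.card_product, Finset.card_univ, Fintype.card_fin,
        Finset.card_erase_of_mem (Finset.mem_univ _), Finset.card_univ, Fintype.card_fin,
        Nat.add_sub_cancel]
    set T3 : Finset ℂ := (Finset.univ : Finset (Fin (M + 1))).image h' with hT3
    have hT3c : T3.card ≤ M + 1 := by
      refine Finset.card_image_le.trans ?_
      rw [Finset.card_univ, Fintype.card_fin]
    set T4 : Finset ℂ := ((Finset.univ : Finset (Fin (v + 1))).erase a0).image β' with hT4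
    have hT4c : T4.card ≤ v := by
      refine Finset.card_image_le.trans ?_
      rw [Finset.card_erase_of_mem (Finset.mem_univ _), Finset.card_univ, Fintype.card_fin,
        Nat.add_sub_cancel]
    refine ⟨T1 ∪ (T2 ∪ (T3 ∪ T4)), ?_, ?_⟩
    · have e2 := Finset.card_union_le T1 (T2 ∪ (T3 ∪ T4))
      have e3 := Finset.card_union_le T2 (T3 ∪ T4)
      have e4 := Finset.card_union_le T3 T4
      have e5 : c * (M + 1) = c * M + c := by ring
      rw [e1, e5]
      omega
    · intro S hS hu hH
      rw [Finset.coe_union, Set.union_subset_iff, Finset.coe_union, Set.union_subset_iff,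
        Finset.coe_union, Set.union_subset_iff] at hS
      obtain ⟨hS1, hS2, hS3, hS4⟩ := hS
      have hβS : ∀ a, β' a ∈ cl S := by
        intro a
        by_cases ha : a = a0
        · rw [ha, hβ1]; exact cl_one S
        · exact hS4 (by
            rw [Finset.mem_coe]
            exact Finset.mem_image_of_mem β' (Finset.mem_erase.2 ⟨ha, Finset.mem_univ a⟩))
      have hhS : ∀ k, h' k ∈ cl S := fun k => hS3 (by
        rw [Finset.mem_coe]
        exact Finset.mem_image_of_mem h' (Finset.mem_univ k))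
      refine ⟨hT1' S hS1 hu (fun k a => ?_), fun i p => ?_⟩
      · rw [h1']; exact cl_mul (hβS a) (hhS k)
      · have hx : ∀ p, p ≠ p0 → x i p ∈ cl S := fun p hp => hS2 (by
          rw [Finset.mem_coe]
          exact Finset.mem_image.2 ⟨(i, p), Finset.mem_product.2
            ⟨Finset.mem_univ i, Finset.mem_erase.2 ⟨hp, Finset.mem_univ p⟩⟩, rfl⟩)
        by_cases hp : p = p0
        · rw [hp]
          have h4 := h3' i
          rw [← Finset.add_sum_erase _ _ (Finset.mem_univ p0)] at h4
          have hn0' : (n0 : ℂ) ≠ 0 := by exact_mod_cast hn0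
          have hd : h' p0 ^ D i ≠ 0 := pow_ne_zero _ hp0'
          have h5 : x i p0 = -(MvPolynomial.eval h' (H i) +
              ∑ p ∈ Finset.univ.erase p0, x i p / n0 * h' p ^ D i) * n0 / h' p0 ^ D i := by
            generalize ∑ p ∈ Finset.univ.erase p0, x i p / n0 * h' p ^ D i = y at h4
            rw [eq_div_iff hd]
            field_simp at h4
            linear_combination h4
          rw [h5]
          refine cl_div (cl_mul (cl_neg (cl_add (cl_eval (hH i) hhS) ?_)) (cl_nat S n0))
            (cl_pow (hhS p0) _)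
          refine cl_sum _ _ fun p hp => ?_
          rw [Finset.mem_erase] at hp
          exact cl_mul (cl_div (hx p hp.1) (cl_nat S n0)) (cl_pow (hhS p) _)
        · exact hx p hp

end Pool.Agent.H20.CX
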