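import Mathlib

/-! A reduced basis of the linear span of a family of vectors. -/

set_option autoImplicit false

namespace Pool.Agent.H20.CX

theorem echelon {N : ℕ} {X : Type} (f : X → Fin (N + 1) → ℂ) :
    ∃ (w : ℕ) (π : Fin w → Fin (N + 1)) (u : Fin w → Fin (N + 1) → ℂ), Function.Injective π ∧
      (∀ a b, u a (π b) = if a = b then 1 else 0) ∧ (∀ z, f z = ∑ a, f z (π a) • u a) ∧
      (∀ g : Fin w → ℂ, (∀ z, ∑ a, g a * f z (π a) = 0) → g = 0) ∧
      (∀ a, ∀ c : Fin (N + 1) → ℂ, (∀ z, ∑ l, c l * f z l = 0) → ∑ l, c l * u a l = 0) := by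
  classical
  obtain ⟨W, hW⟩ : ∃ W : Submodule ℂ (Fin (N + 1) → ℂ), W = Submodule.span ℂ (Set.range f) :=
    ⟨_, rfl⟩
  have hfW : ∀ z, f z ∈ W := fun z => by
    rw [hW]
    exact Submodule.subset_span ⟨z, rfl⟩
  obtain ⟨φ, hφ⟩ : ∃ φ : Fin (N + 1) → Module.Dual ℂ W,
      φ = fun l => (LinearMap.proj l : (Fin (N + 1) → ℂ) →ₗ[ℂ] ℂ).comp W.subtype := ⟨_, rfl⟩
  have hφa : ∀ l (x : W), φ l x = (x : Fin (N + 1) → ℂ) l := fun l x => by rw [hφ]; rfl
  obtain ⟨κ, a, ha, hspan, hli⟩ := exists_linearIndependent' ℂ φ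
  have : Finite κ := Finite.of_injective a ha
  obtain ⟨w, ⟨e⟩⟩ := Finite.exists_equiv_fin κ
  have : Fintype κ := Fintype.ofFinite κ
  -- the coordinates
  let Ψ : W →ₗ[ℂ] (κ → ℂ) := LinearMap.pi fun k => φ (a k)
  have hΨ : ∀ (x : W) k, Ψ x k = (x : Fin (N + 1) → ℂ) (a k) := fun x k => hφa _ _
  have hinj : Function.Injective Ψ := by
    rw [← LinearMap.ker_eq_bot, LinearMap.ker_eq_bot']
    intro x hx
    have h1 : ∀ ψ ∈ Submodule.span ℂ (Set.range (φ ∘ a)), ψ x = 0 := by
      intro ψ hψ
      induction hψ using Submodule.span_induction with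
      | mem y hy =>
        obtain ⟨k, rfl⟩ := hy
        exact congrFun hx k
      | zero => rfl
      | add y y' _ _ h1 h2 => rw [LinearMap.add_apply, h1, h2, add_zero]
      | smul c y _ h1 => rw [LinearMap.smul_apply, h1, smul_zero]
    rw [hspan] at h1
    apply Subtype.ext
    funext l
    rw [← hφa l x]
    exact h1 _ (Submodule.subset_span ⟨l, rfl⟩)
  have hsurj : Function.Surjective Ψ := by
    rw [← LinearMap.range_eq_top]
    by_contra hcon
    obtain ⟨g, hg, hle⟩ := Submodule.exists_le_ker_of_lt_top _ (lt_top_iff_ne_top.2 hcon)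
    apply hg
    have h1 : ∑ k, g (Pi.single k 1) • (φ ∘ a) k = 0 := by
      ext x
      have h2 : g (Ψ x) = 0 := hle ⟨x, rfl⟩
      rw [LinearMap.sum_apply, LinearMap.zero_apply, ← h2]
      have h3 : Ψ x = ∑ k, Ψ x k • (Pi.single k (1 : ℂ) : κ → ℂ) := by
        exact pi_eq_sum_univ' (Ψ x)
      rw [h3, map_sum]
      refine Finset.sum_congr rfl fun k _ => ?_
      rw [map_smul, LinearMap.smul_apply, smul_eq_mul, smul_eq_mul, hΨ, Function.comp_apply, hφa]
      ring
    have h2 := Fintype.linearIndependent_iff.1 hli _ h1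
    ext k
    rw [LinearMap.comp_apply, LinearMap.single_apply, h2 k]
    simp
  let ψ : W ≃ₗ[ℂ] (κ → ℂ) := LinearEquiv.ofBijective Ψ ⟨hinj, hsurj⟩
  obtain ⟨v, hv⟩ : ∃ v : κ → W, v = fun k => ψ.symm (Pi.single k 1) := ⟨_, rfl⟩
  have hvΨ : ∀ k, Ψ (v k) = Pi.single k 1 := fun k => by
    rw [hv]
    exact ψ.apply_symm_apply _
  refine ⟨w, fun i => a (e.symm i), fun i => (v (e.symm i) : Fin (N + 1) → ℂ),
    ha.comp e.symm.injective, fun i j => ?_, fun z => ?_, fun g hg => ?_, fun i c hc => ?_⟩
  · change (v (e.symm i) : Fin (N + 1) → ℂ) (a (e.symm j)) = _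
    rw [← hΨ, hvΨ, Pi.single_apply]
    by_cases h : i = j
    · rw [if_pos h, if_pos (by rw [h])]
    · rw [if_neg h, if_neg (fun h1 => h (e.symm.injective h1).symm)]
  · have h1 : (⟨f z, hfW z⟩ : W) = ∑ k, f z (a k) • v k := by
      apply hinj
      rw [map_sum]
      funext l
      rw [hΨ, Finset.sum_apply, Finset.sum_eq_single l]
      · rw [map_smul, hvΨ, Pi.smul_apply, Pi.single_eq_same, smul_eq_mul, mul_one]
      · intro b _ hb
        rw [map_smul, hvΨ, Pi.smul_apply, Pi.single_eq_of_ne hb.symm, smul_zero]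
      · intro h
        exact absurd (Finset.mem_univ l) h
    have h2 := congrArg (Subtype.val) h1
    rw [Submodule.coe_sum] at h2
    change f z = _ at h2
    conv_lhs => rw [h2]
    rw [← Equiv.sum_comp e.symm]
    rfl
  · have h1 : ∑ k, g (e k) • (φ ∘ a) k = 0 := by
      ext x
      have h2 : ∀ y ∈ W, ∑ k, g (e k) * y (a k) = 0 := by
        intro y hy
        rw [hW] at hy
        induction hy using Submodule.span_induction with
        | mem y hy =>
          obtain ⟨z, rfl⟩ := hy
          have h3 := hg z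
          rw [← Equiv.sum_comp e] at h3
          rw [← h3]
          refine Finset.sum_congr rfl fun k _ => ?_
          change _ = g (e k) * f z (a (e.symm (e k)))
          rw [Equiv.symm_apply_apply]
        | zero => simp
        | add y y' _ _ h1 h2 =>
          simp only [Pi.add_apply, mul_add, Finset.sum_add_distrib]
          rw [h1, h2, add_zero]
        | smul c y _ h1 =>
          have h3 : ∑ k, g (e k) * (c • y) (a k) = c * ∑ k, g (e k) * y (a k) := by
            rw [Finset.mul_sum]
            refine Finset.sum_congr rfl fun k _ => ?_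
            rw [Pi.smul_apply, smul_eq_mul]
            ring
          rw [h3, h1, mul_zero]
      rw [LinearMap.sum_apply, LinearMap.zero_apply, ← h2 x x.2]
      refine Finset.sum_congr rfl fun k _ => ?_
      rw [LinearMap.smul_apply, smul_eq_mul, Function.comp_apply, hφa]
    have h2 := Fintype.linearIndependent_iff.1 hli _ h1
    funext i
    have := h2 (e.symm i)
    rwa [Equiv.apply_symm_apply] at this
  · have h2 : ∀ y ∈ W, ∑ l, c l * y l = 0 := by
      intro y hy
      rw [hW] at hy
      induction hy using Submodule.span_induction with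
      | mem y hy =>
        obtain ⟨z, rfl⟩ := hy
        exact hc z
      | zero => simp
      | add y y' _ _ h1 h2 =>
        simp only [Pi.add_apply, mul_add, Finset.sum_add_distrib]
        rw [h1, h2, add_zero]
      | smul t y _ h1 =>
        have h3 : ∑ l, c l * (t • y) l = t * ∑ l, c l * y l := by
          rw [Finset.mul_sum]
          refine Finset.sum_congr rfl fun k _ => ?_
          rw [Pi.smul_apply, smul_eq_mul]
          ring
        rw [h3, h1, mul_zero]
    exact h2 _ (v (e.symm i)).2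

end Pool.Agent.H20.CX
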