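import Pool.Agent.H20.CX.Sys

/-! The numerical consequences of `exists_system`. -/

set_option autoImplicit false

namespace Pool.Agent.H20.CX

open MvPolynomial
open Pool.Agent.K7.H11.LM

/-- `exists_system` in terms of the dimension, for any index set. -/
theorem general (n m s : ℕ) (hs : 1 ≤ s) (k c : Fin m → ℕ)
    (D : (i : Fin m) → Fin (c i) → ℕ)
    (H : (i : Fin m) → Fin (c i) → MvPolynomial (Fin (k i + c i + 1)) ℂ)
    (hH : ∀ i j, (H i j).IsHomogeneous (D i j)) (hB : ∀ i, Brody (H i))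
    (δ : Fin s → ℕ) (hδ : ∀ l, 2 ≤ δ l)
    (hn : ∀ v, 1 ≤ v → v ≤ n → (v + 1) * (n - v) + v + 2 ≤ s + v * ∑ i, k i)
    (ι : Type) (e : ι ≃ (Σ i, Fin (c i)) ⊕ Fin s) (M : ℕ) (hM : M = n + (∑ i, c i + s)) :
    ∃ G : ι → MvPolynomial (Fin (M + 1)) ℂ,
      (∀ j, (G j).IsHomogeneous (Sum.elim (fun p : Σ i, Fin (c i) => D p.1 p.2) δ (e j))) ∧
      Brody G := by
  have : NeZero s := ⟨by omega⟩
  have hM' : M = n + ∑ i, c i + s := by omega
  subst hM'
  obtain ⟨G, hG, hGB⟩ := exists_system (n + ∑ i, c i) m s (fun i => k i + c i) c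
    (fun i => by omega) D H hH hB (fun l => δ ((ZMod.finEquiv s).symm l)) (fun l => hδ _) (by
      intro v hv hvN
      right
      have e1 : ∑ i, ((k i + c i) * v + c i) = v * ∑ i, k i + (v + 1) * ∑ i, c i := by
        rw [Finset.mul_sum, Finset.mul_sum, ← Finset.sum_add_distrib]
        refine Finset.sum_congr rfl fun i _ => ?_
        ring
      rw [e1]
      rcases le_or_gt v n with h | h
      · have h1 := hn v hv h
        have e2 : n + ∑ i, c i - v = (n - v) + ∑ i, c i := by omega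
        rw [e2, mul_add]
        omega
      · obtain ⟨t, rfl⟩ : ∃ t, v = n + 1 + t := ⟨v - (n + 1), by omega⟩
        obtain ⟨w, hw⟩ : ∃ w, ∑ i, c i = 1 + t + w := ⟨∑ i, c i - (1 + t), by omega⟩
        rw [hw]
        have e2 : n + (1 + t + w) - (n + 1 + t) = w := by omega
        rw [e2]
        have e3 : (n + 1 + t + 1) * (1 + t + w) =
            (n + 1 + t + 1) * w + (n + 1 + t + 1) + (n + 1 + t + 1) * t := by ring
        rw [e3]
        omega)
  refine ⟨fun j => G (Sum.map id (ZMod.finEquiv s).toEquiv (e j)), fun j => ?_, ?_⟩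
  · have h1 := hG (Sum.map id (ZMod.finEquiv s).toEquiv (e j))
    have h2 : Sum.elim (fun p : Σ i, Fin (c i) => D p.1 p.2)
        (fun l => δ ((ZMod.finEquiv s).symm l)) (Sum.map id (ZMod.finEquiv s).toEquiv (e j)) =
        Sum.elim (fun p : Σ i, Fin (c i) => D p.1 p.2) δ (e j) := by
      rcases e j with p | l
      · rfl
      · simp
    rw [h2] at h1
    exact h1
  · intro f hf hf0 hfG z w
    refine hGB f hf hf0 (fun z j => ?_) z w
    obtain ⟨i, hi⟩ : ∃ i, Sum.map id (ZMod.finEquiv s).toEquiv (e i) = j := by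
      rcases j with p | l
      · exact ⟨e.symm (Sum.inl p), by simp⟩
      · exact ⟨e.symm (Sum.inr ((ZMod.finEquiv s).symm l)), by simp⟩
    rw [← hi]
    exact hfG z i

/-- existence of a hyperbolic system of `r` equations in `P ^ (n + r)` -/
def Ex (n r : ℕ) (d : Fin r → ℕ) : Prop :=
  ∃ G : Fin r → MvPolynomial (Fin (n + r + 1)) ℂ, (∀ j, (G j).IsHomogeneous (d j)) ∧ Brody G

/-- no blocks -/
lemma ex_base {n r : ℕ} (hr : 1 ≤ r) (hn : ∀ v, 1 ≤ v → v ≤ n → (v + 1) * (n - v) + v + 2 ≤ r)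
    (d : Fin r → ℕ) (hd : ∀ l, 2 ≤ d l) : Ex n r d := by
  obtain ⟨G, hG, hGB⟩ := general n 0 r hr (fun i => i.elim0) (fun i => i.elim0)
    (fun i => i.elim0) (fun i => i.elim0) (fun i => i.elim0) (fun i => i.elim0) d hd (by
      intro v h1 h2
      have := hn v h1 h2
      omega) (Fin r) (Equiv.emptySum _ _).symm (n + r) (by simp)
  exact ⟨G, fun j => by simpa using hG j, hGB⟩

/-- blocks of larger degree -/
lemma ex_blk {k c t : ℕ} (hck : k + 1 ≤ c)
    (hc : ∀ m, m ≤ k → (t + 1) * (m * (k - m)) + k + m + 1 ≤ (t + 1) * c)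
    (d : Fin c → ℕ) (hd : ∀ l, t + 2 ≤ d l) : Ex k c d := by
  have : NeZero c := ⟨by omega⟩
  obtain ⟨F, hF, hFB⟩ := Pool.Agent.H20.DF.block k c t (fun l => d ((ZMod.finEquiv c).symm l))
    (fun l => hd _) hck hc
  refine ⟨fun j => F (ZMod.finEquiv c j), fun j => by simpa using hF (ZMod.finEquiv c j), ?_⟩
  intro f hf hf0 hfG z w
  refine hFB f hf hf0 (fun z j => ?_) z w
  have h1 := hfG z ((ZMod.finEquiv c).symm j)
  simpa using h1

/-- blocks which exist for all degrees at least `b` -/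
lemma ex_step {n m s k c r b : ℕ} (hb : 2 ≤ b) (hs : 1 ≤ s) (hr : r = m * c + s)
    (hk : ∀ d : Fin c → ℕ, (∀ l, b ≤ d l) → Ex k c d)
    (hn : ∀ v, 1 ≤ v → v ≤ n → (v + 1) * (n - v) + v + 2 ≤ s + v * (m * k))
    (d : Fin r → ℕ) (hd : ∀ l, b ≤ d l) : Ex n r d := by
  obtain ⟨e⟩ : Nonempty (Fin r ≃ (Σ _ : Fin m, Fin c) ⊕ Fin s) := by
    refine ⟨Fintype.equivOfCardEq ?_⟩
    rw [Fintype.card_sum, Fintype.card_sigma, Fintype.card_fin, Fintype.card_fin, hr]
    simp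
  have hX := fun i : Fin m => hk (fun j => d (e.symm (Sum.inl ⟨i, j⟩))) fun l => hd _
  choose H hH hB using hX
  obtain ⟨G, hG, hGB⟩ := general n m s hs (fun _ => k) (fun _ => c)
    (fun i j => d (e.symm (Sum.inl ⟨i, j⟩))) H hH hB (fun l => d (e.symm (Sum.inr l)))
    (fun l => hb.trans (hd _)) (by
      intro v h1 h2
      have := hn v h1 h2
      simpa using this) (Fin r) e (n + r) (by simp [hr])
  refine ⟨G, fun j => ?_, hGB⟩
  have h1 := hG j
  have h2 : Sum.elim (fun p : Σ _ : Fin m, Fin c => d (e.symm (Sum.inl ⟨p.1, p.2⟩)))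
      (fun l => d (e.symm (Sum.inr l))) (e j) = d j := by
    rcases hj : e j with p | l
    · change d (e.symm (Sum.inl p)) = d j
      rw [← hj, Equiv.symm_apply_apply]
    · change d (e.symm (Sum.inr l)) = d j
      rw [← hj, Equiv.symm_apply_apply]
  rwa [h2] at h1

/-- the elementary inequality -/
lemma quad_le {n u a k v s : ℕ} (hn : n = a * k + u) (hu : u * u / 4 + n + 2 ≤ s) (hv : v ≤ n) :
    (v + 1) * (n - v) + v + 2 ≤ s + v * (a * k) := by
  obtain ⟨p, hp⟩ : ∃ p, p = a * k := ⟨_, rfl⟩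
  rw [← hp] at hn ⊢
  clear hp
  obtain ⟨w, rfl⟩ : ∃ w, n = v + w := ⟨n - v, by omega⟩
  have e1 : v + w - v = w := by omega
  rw [e1]
  have h1 : u * u < 4 * (s - (v + w) - 2) + 4 := by omega
  have h2 : v + w + 2 ≤ s := by omega
  obtain ⟨t, rfl⟩ : ∃ t, s = v + w + 2 + t := ⟨s - (v + w + 2), by omega⟩
  have e2 : v + w + 2 + t - (v + w) - 2 = t := by omega
  rw [e2] at h1
  have h3 : v * w ≤ t + v * p := by
    by_contra hcon
    push Not at hcon
    have h4 : (t : ℤ) + v * p + 1 ≤ v * w := by exact_mod_cast hcon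
    have h5 : (u : ℤ) * u < 4 * t + 4 := by exact_mod_cast h1
    have h6 : (u : ℤ) = v + w - p := by
      have : ((v + w : ℕ) : ℤ) = ((p + u : ℕ) : ℤ) := by rw [hn]
      push_cast at this
      linarith
    have h7 : (0 : ℤ) ≤ (u - 2 * v) ^ 2 := sq_nonneg _
    nlinarith
  nlinarith

/-- the base case -/
lemma ex_quad {n r : ℕ} (hr : n * n / 4 + n + 2 ≤ r) (d : Fin r → ℕ) (hd : ∀ l, 2 ≤ d l) :
    Ex n r d := by
  refine ex_base (by omega) (fun v _ hv => ?_) d hd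
  have := quad_le (n := n) (u := n) (a := 0) (k := 0) (v := v) (s := r) (by omega) hr hv
  simpa using this

/-- the linear bound -/
lemma ex_lin {n r : ℕ} (hn : 3 ≤ n) (hr : 10 * n / 3 ≤ r + 3) (d : Fin r → ℕ) (hd : ∀ l, 2 ≤ d l) :
    Ex n r d := by
  obtain ⟨a, u, hau, hu⟩ : ∃ a u, n = a * 3 + u ∧ (u = 3 ∨ u = 4 ∨ u = 5) := by
    refine ⟨n / 3 - 1, n % 3 + 3, by omega, by omega⟩
  have h7 : ∀ d : Fin 7 → ℕ, (∀ l, 2 ≤ d l) → Ex 3 7 d := fun d hd => ex_quad (by norm_num) d hd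
  obtain ⟨s, hs⟩ : ∃ s, s = r - 7 * a := ⟨_, rfl⟩
  have h8 : u * u / 4 + n + 2 ≤ s ∧ r = a * 7 + s := by
    rcases hu with rfl | rfl | rfl <;> constructor <;> omega
  refine ex_step (m := a) (s := s) (k := 3) (c := 7) le_rfl (by omega) h8.2 h7
    (fun v _ hv => ?_) d hd
  exact quad_le hau h8.1 hv

/-- degrees at least two -/
theorem ex_two {n r : ℕ} (hn : 1 ≤ n) (hr : 2 * n + 1 ≤ r) (hr' : 10 * n / 3 ≤ r + 3)
    (d : Fin r → ℕ) (hd : ∀ l, 2 ≤ d l) : Ex n r d := by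
  rcases le_or_gt 3 n with h | h
  · exact ex_lin h hr' d hd
  · refine ex_quad ?_ d hd
    interval_cases n <;> omega

/-- degrees at least three -/
theorem ex_three {n r : ℕ} (hn : 1 ≤ n) (hr : 5 * n / 2 ≤ r) (d : Fin r → ℕ)
    (hd : ∀ l, 3 ≤ d l) : Ex n r d := by
  rcases le_or_gt 2 n with h | h
  · obtain ⟨a, u, hau, hu⟩ : ∃ a u, n = a * 2 + u ∧ (u = 2 ∨ u = 3) := by
      refine ⟨n / 2 - 1, n % 2 + 2, by omega, by omega⟩
    have h3 : ∀ d : Fin 3 → ℕ, (∀ l, 3 ≤ d l) → Ex 2 3 d := fun d hd =>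
      ex_blk (t := 1) (by norm_num) (by intro m hm; interval_cases m <;> norm_num) d hd
    obtain ⟨s, hs⟩ : ∃ s, s = r - 3 * a := ⟨_, rfl⟩
    have h8 : u * u / 4 + n + 2 ≤ s ∧ r = a * 3 + s := by
      rcases hu with rfl | rfl <;> constructor <;> omega
    refine ex_step (m := a) (s := s) (k := 2) (c := 3) (b := 3) (by norm_num) (by omega) h8.2 h3
      (fun v _ hv => ?_) d hd
    exact quad_le hau h8.1 hv
  · obtain rfl : n = 1 := by omega
    refine ex_blk (t := 1) (by omega) ?_ d hd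
    intro m hm
    interval_cases m <;> omega

end Pool.Agent.H20.CX
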