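import Pool.Agent.H20.CI.Blk
import Pool.Agent.H20.DF.Grn

/-! Linear forms on a curve with a cyclic condition for their zeros: a bound for the transcendence
degree of their coefficients. -/

set_option autoImplicit false

namespace Pool.Agent.H20.CX

open Pool.Agent.H20.CI Pool.Agent.H20.DF

variable {v : ℕ}

/-- the value of the linear form `c` at `y` -/
def dot (c y : Fin (v + 1) → ℂ) : ℂ := ∑ a, c a * y a

lemma dot_smul_left (t : ℂ) (c y : Fin (v + 1) → ℂ) : dot (t • c) y = t * dot c y := by
  unfold dot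
  rw [Finset.mul_sum]
  refine Finset.sum_congr rfl fun a _ => ?_
  rw [Pi.smul_apply, smul_eq_mul]
  ring

lemma dot_sub_left (c c' y : Fin (v + 1) → ℂ) : dot (c - c') y = dot c y - dot c' y := by
  unfold dot
  rw [← Finset.sum_sub_distrib]
  refine Finset.sum_congr rfl fun a _ => ?_
  rw [Pi.sub_apply]
  ring

/-- linear forms which vanish at one point -/
lemma pt_count {α : Type} [DecidableEq α] (lam : α → Fin (v + 1) → ℂ) (Q : Finset α)
    {y : Fin (v + 1) → ℂ} (hy : y ≠ 0) (hQ : ∀ j ∈ Q, dot (lam j) y = 0) :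
    ∃ T : Finset ℂ, T.card ≤ v + Q.card * v ∧ ∀ S : Set ℂ, (T : Set ℂ) ⊆ cl S →
      ∀ j ∈ Q, ∀ a, lam j a ∈ cl S := by
  classical
  obtain ⟨i0, hi0⟩ := Function.ne_iff.1 hy
  have hi0' : y i0 ≠ 0 := hi0
  obtain ⟨y', hy'⟩ : ∃ y' : Fin (v + 1) → ℂ, y' = fun a => y a / y i0 := ⟨_, rfl⟩
  have hy1 : y' i0 = 1 := by
    rw [hy']
    exact div_self hi0'
  have hQ' : ∀ j ∈ Q, ∑ a, lam j a * y' a = 0 := by
    intro j hj
    have h1 := hQ j hj
    unfold dot at h1
    rw [hy']
    simp only [mul_div_assoc']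
    rw [← Finset.sum_div, h1, zero_div]
  have hcard : ((Finset.univ : Finset (Fin (v + 1))).erase i0).card = v := by
    rw [Finset.card_erase_of_mem (Finset.mem_univ _), Finset.card_univ, Fintype.card_fin,
      Nat.add_sub_cancel]
  refine ⟨(Finset.univ.erase i0).image y' ∪ (Q ×ˢ Finset.univ.erase i0).image
    (fun p => lam p.1 p.2), ?_, fun S hS j hj a => ?_⟩
  · refine (Finset.card_union_le _ _).trans (add_le_add ?_ ?_)
    · exact Finset.card_image_le.trans hcard.le
    · refine Finset.card_image_le.trans ?_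
      rw [Finset.card_product, hcard]
  · rw [Finset.coe_union, Set.union_subset_iff] at hS
    have h1 : ∀ a, a ≠ i0 → lam j a ∈ cl S := fun a ha => hS.2 (by
      rw [Finset.mem_coe]
      exact Finset.mem_image.2 ⟨(j, a), Finset.mem_product.2
        ⟨hj, Finset.mem_erase.2 ⟨ha, Finset.mem_univ a⟩⟩, rfl⟩)
    by_cases ha : a = i0
    · have h2 := hQ' j hj
      rw [← Finset.add_sum_erase _ _ (Finset.mem_univ i0), hy1, mul_one] at h2
      rw [ha, show lam j i0 = -∑ a ∈ Finset.univ.erase i0, lam j a * y' a by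
        linear_combination h2]
      refine cl_neg (cl_sum _ _ fun b hb => cl_mul (h1 b (Finset.mem_erase.1 hb).1) (hS.1 ?_))
      rw [Finset.mem_coe]
      exact Finset.mem_image_of_mem y' hb
    · exact h1 a ha

open Classical in
/-- an element of a set of indices -/
noncomputable def iOf (s : Set (Fin (v + 1))) : Fin (v + 1) := if h : s.Nonempty then h.some else 0

/-- a coordinate which is not zero, given by the support of the vector -/
noncomputable def idx (x : Fin (v + 1) → ℂ) : Fin (v + 1) := iOf {a | x a ≠ 0}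

lemma idx_ne {x : Fin (v + 1) → ℂ} (hx : x ≠ 0) : x (idx x) ≠ 0 := by
  obtain ⟨a, ha⟩ := Function.ne_iff.1 hx
  have h : ({a | x a ≠ 0} : Set (Fin (v + 1))).Nonempty := ⟨a, ha⟩
  unfold idx iOf
  rw [dif_pos h]
  exact h.some_mem

lemma idx_smul {t : ℂ} (ht : t ≠ 0) (x : Fin (v + 1) → ℂ) : idx (t • x) = idx x := by
  unfold idx
  congr 1
  ext a
  simp [ht]

/-- the normalised vector -/
noncomputable def nrm (x : Fin (v + 1) → ℂ) : Fin (v + 1) → ℂ := (x (idx x))⁻¹ • x

lemma nrm_smul {t : ℂ} (ht : t ≠ 0) (x : Fin (v + 1) → ℂ) : nrm (t • x) = nrm x := by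
  unfold nrm
  rw [idx_smul ht, Pi.smul_apply, smul_eq_mul, mul_inv, smul_smul]
  congr 1
  field_simp

lemma nrm_ne {x : Fin (v + 1) → ℂ} (hx : x ≠ 0) : nrm x ≠ 0 :=
  smul_ne_zero (inv_ne_zero (idx_ne hx)) hx

lemma nrm_nrm {x : Fin (v + 1) → ℂ} (hx : x ≠ 0) : nrm (nrm x) = nrm x := by
  conv_lhs => rw [nrm.eq_def x]
  exact nrm_smul (inv_ne_zero (idx_ne hx)) x

lemma idx_nrm {x : Fin (v + 1) → ℂ} (hx : x ≠ 0) : idx (nrm x) = idx x := by
  unfold nrm
  exact idx_smul (inv_ne_zero (idx_ne hx)) x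

lemma nrm_idx {x : Fin (v + 1) → ℂ} (hx : x ≠ 0) : nrm x (idx x) = 1 := by
  unfold nrm
  rw [Pi.smul_apply, smul_eq_mul]
  exact inv_mul_cancel₀ (idx_ne hx)

/-- linear forms without zeros on a curve which spans the space -/
lemma free_count {α : Type} [DecidableEq α] (hv : 1 ≤ v) (lam : α → Fin (v + 1) → ℂ)
    {g : ℂ → Fin (v + 1) → ℂ} (hg : Differentiable ℂ g)
    (hspan : ∀ c : Fin (v + 1) → ℂ, (∀ z, dot c (g z) = 0) → c = 0) (O : Finset α)
    (hO : ∀ j ∈ O, ∀ z, dot (lam j) (g z) ≠ 0) :
    ∃ T : Finset ℂ, T.card ≤ O.card * v + (v + 1) ∧ ∀ S : Set ℂ, (T : Set ℂ) ⊆ cl S →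
      ∀ j ∈ O, ∀ a, lam j a ∈ cl S := by
  classical
  have hne : ∀ j ∈ O, lam j ≠ 0 := by
    intro j hj h
    apply hO j hj 0
    rw [h]
    simp [dot]
  set P : Finset (Fin (v + 1) → ℂ) := O.image fun j => nrm (lam j) with hP
  have hP1 : P.card ≤ O.card := Finset.card_image_le
  have hPz : ∀ ρ ∈ P, ρ ≠ 0 ∧ nrm ρ = ρ ∧ ∀ z, dot ρ (g z) ≠ 0 := by
    intro ρ hρ
    obtain ⟨j, hj, rfl⟩ := Finset.mem_image.1 hρ
    refine ⟨nrm_ne (hne j hj), nrm_nrm (hne j hj), fun z => ?_⟩
    unfold nrm
    rw [dot_smul_left]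
    exact mul_ne_zero (inv_ne_zero (idx_ne (hne j hj))) (hO j hj z)
  have hP2 : P.card ≤ v + 1 := by
    have hli : LinearIndependent ℂ (fun ρ : P => (ρ : Fin (v + 1) → ℂ)) := by
      by_contra hdep
      rw [Fintype.not_linearIndependent_iff] at hdep
      obtain ⟨c, hc, ρ0, hρ0⟩ := hdep
      set T : Finset P := Finset.univ.filter fun ρ => c ρ ≠ 0 with hT
      have hdg : ∀ x : Fin (v + 1) → ℂ, Differentiable ℂ fun z => dot x (g z) := by
        intro x
        unfold dot
        exact Differentiable.fun_sum fun a _ => (differentiable_pi.1 hg a).const_mul (x a)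
      obtain ⟨ρ1, hρ1, hne1, t, ht⟩ := borel' T (fun ρ z => c ρ * dot (ρ : Fin (v + 1) → ℂ) (g z))
        (fun ρ _ => (hdg _).const_mul _)
        (fun ρ hρ z => mul_ne_zero (Finset.mem_filter.1 hρ).2 ((hPz ρ ρ.2).2.2 z))
        (fun z => by
          have h1 : ∑ ρ : P, c ρ * dot (ρ : Fin (v + 1) → ℂ) (g z) = 0 := by
            have h2 : ∑ a, (∑ ρ : P, c ρ • (ρ : Fin (v + 1) → ℂ)) a * g z a = 0 := by
              rw [hc]
              simp
            rw [← h2]
            simp only [Finset.sum_apply, Pi.smul_apply, smul_eq_mul, Finset.sum_mul]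
            rw [Finset.sum_comm]
            refine Finset.sum_congr rfl fun ρ _ => ?_
            unfold dot
            rw [Finset.mul_sum]
            refine Finset.sum_congr rfl fun a _ => ?_
            ring
          rw [← h1]
          refine Finset.sum_subset (Finset.filter_subset _ _) fun ρ _ hρ => ?_
          have h3 : c ρ = 0 := by
            by_contra h4
            exact hρ (Finset.mem_filter.2 ⟨Finset.mem_univ _, h4⟩)
          rw [h3, zero_mul])
        (Finset.mem_filter.2 ⟨Finset.mem_univ ρ0, hρ0⟩)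
      have hcρ1 : c ρ1 ≠ 0 := (Finset.mem_filter.1 hρ1).2
      have h1 : (ρ1 : Fin (v + 1) → ℂ) - (t * c ρ0 / c ρ1) • (ρ0 : Fin (v + 1) → ℂ) = 0 := by
        refine hspan _ fun z => ?_
        rw [dot_sub_left, dot_smul_left]
        have h2 := ht z
        field_simp
        linear_combination h2
      have h2 := sub_eq_zero.1 h1
      have h3 : t * c ρ0 / c ρ1 ≠ 0 := by
        intro h0
        rw [h0, zero_smul] at h2
        exact (hPz ρ1 ρ1.2).1 h2
      apply hne1
      apply Subtype.ext
      rw [← (hPz ρ1 ρ1.2).2.1, h2, nrm_smul h3, (hPz ρ0 ρ0.2).2.1]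
    have h1 := hli.fintype_card_le_finrank
    rwa [Fintype.card_coe, Module.finrank_fin_fun] at h1
  refine ⟨P.biUnion (fun ρ => (Finset.univ.erase (idx ρ)).image ρ) ∪
    O.image (fun j => lam j (idx (lam j))), ?_, fun S hS j hj a => ?_⟩
  · have h1 : (P.biUnion (fun ρ => (Finset.univ.erase (idx ρ)).image ρ)).card ≤ P.card * v := by
      refine Finset.card_biUnion_le_card_mul _ _ _ fun ρ _ => ?_
      refine Finset.card_image_le.trans ?_
      rw [Finset.card_erase_of_mem (Finset.mem_univ _), Finset.card_univ, Fintype.card_fin,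
        Nat.add_sub_cancel]
    have h2 : (O.image (fun j => lam j (idx (lam j)))).card ≤ O.card := Finset.card_image_le
    have h3 := Finset.card_union_le (P.biUnion (fun ρ => (Finset.univ.erase (idx ρ)).image ρ))
      (O.image (fun j => lam j (idx (lam j))))
    obtain ⟨v', rfl⟩ := Nat.exists_eq_add_of_le' hv
    have h4 : P.card * (v' + 1) = P.card * v' + P.card := by ring
    have h5 : O.card * (v' + 1) = O.card * v' + O.card := by ring
    have h6 : P.card * v' ≤ O.card * v' := Nat.mul_le_mul_right _ hP1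
    omega
  · rw [Finset.coe_union, Set.union_subset_iff] at hS
    have hρ : nrm (lam j) ∈ P := Finset.mem_image_of_mem _ hj
    have h1 : ∀ a, nrm (lam j) a ∈ cl S := by
      intro a
      by_cases ha : a = idx (nrm (lam j))
      · rw [ha, idx_nrm (hne j hj), nrm_idx (hne j hj)]
        exact cl_one S
      · refine hS.1 ?_
        rw [Finset.mem_coe, Finset.mem_biUnion]
        exact ⟨_, hρ, Finset.mem_image_of_mem _ (Finset.mem_erase.2 ⟨ha, Finset.mem_univ a⟩)⟩
    have h2 : lam j (idx (lam j)) ∈ cl S := hS.2 (by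
      rw [Finset.mem_coe]
      exact Finset.mem_image_of_mem _ hj)
    have h3 : lam j a = lam j (idx (lam j)) * nrm (lam j) a := by
      unfold nrm
      rw [Pi.smul_apply, smul_eq_mul, ← mul_assoc, mul_inv_cancel₀ (idx_ne (hne j hj)), one_mul]
    rw [h3]
    exact cl_mul h2 (h1 a)

/-- **Linear forms with a cyclic condition for their zeros on a curve which spans the space.** Their
coefficients are algebraic over a field generated by few numbers. -/
theorem lam_count {s : ℕ} [NeZero s] (hv : 1 ≤ v) (lam : ZMod s → Fin (v + 1) → ℂ)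
    {g : ℂ → Fin (v + 1) → ℂ} (hg : Differentiable ℂ g) (hg0 : ∀ z, g z ≠ 0)
    (hspan : ∀ c : Fin (v + 1) → ℂ, (∀ z, dot c (g z) = 0) → c = 0)
    (hchain : ∀ j, lam j ≠ 0 → ∀ z, dot (lam j) (g z) = 0 → dot (lam (j + 1)) (g z) = 0) :
    ∃ T : Finset ℂ, T.card ≤ s * v + (v + 1) ∧ ∀ S : Set ℂ, (T : Set ℂ) ⊆ cl S →
      ∀ j a, lam j a ∈ cl S := by
  classical
  set I : Finset (ZMod s) := Finset.univ.filter fun j => lam j = 0 with hI
  set O : Finset (ZMod s) := Finset.univ.filter fun j => ∀ z, dot (lam j) (g z) ≠ 0 with hO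
  set R : Finset (ZMod s) := Finset.univ.filter fun j => j ∉ I ∧ j ∉ O with hR
  have hmemI : ∀ j, j ∈ I ↔ lam j = 0 := fun j => by rw [hI, Finset.mem_filter]; simp
  have hmemO : ∀ j, j ∈ O ↔ ∀ z, dot (lam j) (g z) ≠ 0 := fun j => by
    rw [hO, Finset.mem_filter]; simp
  have hmemR : ∀ j, j ∈ R ↔ j ∉ I ∧ j ∉ O := fun j => by rw [hR, Finset.mem_filter]; simp
  have hIO : Disjoint I O := by
    rw [Finset.disjoint_left]
    intro j h1 h2
    apply (hmemO j).1 h2 0
    rw [(hmemI j).1 h1]
    simp [dot]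
  have hcard : I.card + R.card + O.card = s := by
    have h1 : Disjoint (I ∪ R) O := by
      rw [Finset.disjoint_union_left]
      refine ⟨hIO, ?_⟩
      rw [Finset.disjoint_left]
      exact fun j h1 h2 => ((hmemR j).1 h1).2 h2
    have h2 : Disjoint I R := by
      rw [Finset.disjoint_left]
      exact fun j h1 h2 => ((hmemR j).1 h2).1 h1
    have h3 : I ∪ R ∪ O = Finset.univ := by
      ext j
      simp only [Finset.mem_union, Finset.mem_univ, iff_true]
      by_cases h4 : j ∈ I
      · exact Or.inl (Or.inl h4)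
      · by_cases h5 : j ∈ O
        · exact Or.inr h5
        · exact Or.inl (Or.inr ((hmemR j).2 ⟨h4, h5⟩))
    rw [← Finset.card_union_of_disjoint h2, ← Finset.card_union_of_disjoint h1, h3,
      Finset.card_univ, ZMod.card]
  obtain ⟨TO, hTO1, hTO2⟩ := free_count hv lam hg hspan O (fun j hj => (hmemO j).1 hj)
  have hzR : ∀ j ∈ R, ∃ z, dot (lam j) (g z) = 0 := by
    intro j hj
    by_contra hcon
    push Not at hcon
    exact ((hmemR j).1 hj).2 ((hmemO j).2 hcon)
  by_cases hIe : I = ∅
  · by_cases hRe : R = ∅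
    · -- no zeros at all
      refine ⟨TO, ?_, fun S hS j a => hTO2 S hS j ?_ a⟩
      · rw [hIe, hRe, Finset.card_empty, zero_add, zero_add] at hcard
        rwa [hcard] at hTO1
      · by_contra hj
        have h1 : j ∈ R := (hmemR j).2 ⟨by rw [hIe]; exact Finset.notMem_empty j, hj⟩
        rw [hRe] at h1
        exact Finset.notMem_empty j h1
    · -- a common zero of all forms
      obtain ⟨j0, hj0⟩ := Finset.nonempty_iff_ne_empty.2 hRe
      obtain ⟨z0, hz0⟩ := hzR j0 hj0
      have hall : ∀ a : ℕ, dot (lam (j0 + a)) (g z0) = 0 := by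
        intro a
        induction a with
        | zero => simpa using hz0
        | succ a ih =>
          have h1 := hchain (j0 + a) (fun h => by
            have h2 : j0 + (a : ZMod s) ∈ I := (hmemI _).2 h
            rw [hIe] at h2
            exact Finset.notMem_empty _ h2) z0 ih
          rw [Nat.cast_add, Nat.cast_one, ← add_assoc]
          exact h1
      obtain ⟨T, hT1, hT2⟩ := pt_count lam Finset.univ (hg0 z0) (fun j _ => by
        have h1 := hall (j - j0).val
        rw [ZMod.natCast_zmod_val, add_sub_cancel] at h1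
        exact h1)
      rw [Finset.card_univ, ZMod.card] at hT1
      exact ⟨T, by omega, fun S hS j a => hT2 S hS j (Finset.mem_univ j) a⟩
  · -- distances to the next vanishing form
    obtain ⟨b0, hb0⟩ := Finset.nonempty_iff_ne_empty.2 hIe
    have hex : ∀ j : ZMod s, ∃ a : ℕ, 1 ≤ a ∧ j + (a : ZMod s) ∈ I := by
      intro j
      refine ⟨(b0 - j).val + s, ?_, ?_⟩
      · have := NeZero.pos s
        omega
      · rw [Nat.cast_add, ZMod.natCast_zmod_val, ZMod.natCast_self, add_zero, add_sub_cancel]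
        exact hb0
    set dist : ZMod s → ℕ := fun j => Nat.find (hex j) with hdist
    have hd1 : ∀ j, 1 ≤ dist j := fun j => (Nat.find_spec (hex j)).1
    have hd2 : ∀ j, j + (dist j : ZMod s) ∈ I := fun j => (Nat.find_spec (hex j)).2
    have hd3 : ∀ j (a : ℕ), 1 ≤ a → a < dist j → j + (a : ZMod s) ∉ I := fun j a h1 h2 h3 =>
      Nat.find_min (hex j) h2 ⟨h1, h3⟩
    have hchain2 : ∀ j ∈ R, ∀ z, dot (lam j) (g z) = 0 → ∀ a : ℕ, a < dist j →
        dot (lam (j + a)) (g z) = 0 := by
      intro j hj z hz a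
      induction a with
      | zero => intro _; simpa using hz
      | succ a ih =>
        intro ha
        have h1 := ih (by omega)
        have h2 : j + (a : ZMod s) ∉ I := by
          by_cases h3 : a = 0
          · rw [h3, Nat.cast_zero, add_zero]
            exact ((hmemR j).1 hj).1
          · exact hd3 j a (by omega) (by omega)
        have h4 := hchain (j + a) (fun h => h2 ((hmemI _).2 h)) z h1
        rw [Nat.cast_add, Nat.cast_one, ← add_assoc]
        exact h4
    -- the forms before `b`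
    set Rb : ZMod s → Finset (ZMod s) := fun b => R.filter fun j => j + (dist j : ZMod s) = b
      with hRb
    have hTb : ∀ b, ∃ T : Finset ℂ, T.card ≤ v + (Rb b).card * v ∧ ∀ S : Set ℂ,
        (T : Set ℂ) ⊆ cl S → ∀ j ∈ Rb b, ∀ a, lam j a ∈ cl S := by
      intro b
      rcases (Rb b).eq_empty_or_nonempty with he | hne
      · refine ⟨∅, by simp, fun S _ j hj => ?_⟩
        rw [he] at hj
        exact absurd hj (Finset.notMem_empty j)
      · obtain ⟨j1, hj1, hmax⟩ := Finset.exists_max_image (Rb b) dist hne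
        obtain ⟨hj1R, hj1b⟩ := Finset.mem_filter.1 hj1
        obtain ⟨z1, hz1⟩ := hzR j1 hj1R
        refine pt_count lam (Rb b) (hg0 z1) fun j hj => ?_
        obtain ⟨hjR, hjb⟩ := Finset.mem_filter.1 hj
        have h1 := hmax j hj
        have h2 := hchain2 j1 hj1R z1 hz1 (dist j1 - dist j) (by have := hd1 j; omega)
        rw [Nat.cast_sub h1] at h2
        have h3 : j1 + ((dist j1 : ZMod s) - (dist j : ZMod s)) = j := by
          rw [← add_sub_assoc, hj1b, ← hjb, add_sub_cancel_right]
        rwa [h3] at h2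
    choose Tb hTb1 hTb2 using hTb
    refine ⟨I.biUnion Tb ∪ TO, ?_, fun S hS j a => ?_⟩
    · have h1 := Finset.card_union_le (I.biUnion Tb) TO
      have h2 : (I.biUnion Tb).card ≤ ∑ b ∈ I, (v + (Rb b).card * v) :=
        Finset.card_biUnion_le.trans (Finset.sum_le_sum fun b _ => hTb1 b)
      have h3 : ∑ b ∈ I, (Rb b).card = R.card := by
        rw [Finset.card_eq_sum_card_fiberwise (f := fun j => j + (dist j : ZMod s)) (t := I)
          (fun j _ => hd2 j)]
      rw [Finset.sum_add_distrib, Finset.sum_const, smul_eq_mul, ← Finset.sum_mul, h3] at h2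
      have h4 : s * v = I.card * v + R.card * v + O.card * v := by
        have h5 : (I.card + R.card + O.card) * v = s * v := congrArg (· * v) hcard
        rw [← h5]
        ring
      omega
    · rw [Finset.coe_union, Set.union_subset_iff] at hS
      by_cases h4 : j ∈ I
      · rw [(hmemI j).1 h4]
        exact cl_zero S
      · by_cases h5 : j ∈ O
        · exact hTO2 S hS.2 j h5 a
        · have h6 : j ∈ R := (hmemR j).2 ⟨h4, h5⟩
          refine hTb2 (j + dist j) S ?_ j (Finset.mem_filter.2 ⟨h6, rfl⟩) a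
          refine Set.Subset.trans ?_ hS.1
          intro x hx
          rw [Finset.mem_coe, Finset.mem_biUnion]
          exact ⟨_, hd2 j, hx⟩

end Pool.Agent.H20.CX
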