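import Pool.Agent.H20.CX.Ech
import Pool.Agent.H20.CX.Cnt
import Pool.Agent.H20.CX.Lam
import Pool.Agent.H20.CI.Cur
import Pool.Agent.H20.DF.Blk

/-! Generic linear pull-backs of hyperbolic varieties, together with a cyclic system of equations
near a union of linear spaces. -/

set_option autoImplicit false

namespace Pool.Agent.H20.CX

open MvPolynomial
open Pool.Agent.K7.H11.GG
open Pool.Agent.K7.H11.LM
open Pool.Agent.H20.CI
open Pool.Agent.H20.DF (xx xD cover bounded prod_zero limit)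

section

variable {N s : ℕ} [NeZero s]

/-- linear forms in the first `N + 1` variables -/
noncomputable def lfx (s : ℕ) (c : Fin (N + 1) → ℂ) : MvPolynomial (Fin (N + s + 1)) ℂ :=
  ∑ l, C (c l) * X (xx N s l)

omit [NeZero s] in
lemma eval_lfx (c : Fin (N + 1) → ℂ) (u : Fin (N + s + 1) → ℂ) :
    eval u (lfx s c) = ∑ l, c l * u (xx N s l) := by
  unfold lfx
  rw [map_sum]
  refine Finset.sum_congr rfl fun j _ => ?_
  rw [map_mul, eval_C, eval_X]

omit [NeZero s] in
lemma hom_lfx (c : Fin (N + 1) → ℂ) : (lfx s c).IsHomogeneous 1 := by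
  unfold lfx
  refine IsHomogeneous.sum _ _ _ fun j _ => ?_
  have h2 := (isHomogeneous_C (Fin (N + s + 1)) (c j)).mul (isHomogeneous_X ℂ (xx N s j))
  simpa using h2

end

/-- roots of unity -/
lemma exists_other {d : ℕ} (hd : 2 ≤ d) {ζ : ℂ} (hζ : ζ ^ d = 1) : ∃ ζ' : ℂ, ζ' ^ d = 1 ∧ ζ' ≠ ζ := by
  have h0 : ζ ≠ 0 := by
    rintro rfl
    rw [zero_pow (by omega)] at hζ
    exact zero_ne_one hζ
  have hp := Complex.isPrimitiveRoot_exp d (by omega)
  refine ⟨ζ * Complex.exp (2 * Real.pi * Complex.I / d), ?_, fun h => ?_⟩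
  · rw [mul_pow, hζ, hp.pow_eq_one, one_mul]
  · have h1 := mul_left_cancel₀ h0 (h.trans (mul_one ζ).symm)
    exact hp.ne_one (by omega) h1

/-- if the `d`-th powers of two entire functions coincide -/
lemma pow_eq {d : ℕ} (hd : 1 ≤ d) {p q : ℂ → ℂ} (hp : Differentiable ℂ p) (hq : Differentiable ℂ q)
    (h : ∀ z, p z ^ d = q z ^ d) : ∃ ζ : ℂ, ζ ^ d = 1 ∧ ∀ z, p z = ζ * q z := by
  classical
  have hpr := Complex.isPrimitiveRoot_exp d (by omega)
  obtain ⟨ζ, hζ, h1⟩ := prod_zero (Polynomial.nthRootsFinset d (1 : ℂ))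
    (fun ζ z => p z - ζ * q z) (fun ζ _ => hp.sub (hq.const_mul ζ)) (fun z => by
      rw [← hpr.pow_sub_pow_eq_prod_sub_mul (p z) (q z) (by omega), h z, sub_self])
  rw [Polynomial.mem_nthRootsFinset (by omega)] at hζ
  exact ⟨ζ, hζ, fun z => sub_eq_zero.1 (h1 z)⟩

/-- **Generic linear pull-backs of hyperbolic varieties, together with a cyclic system.** -/
theorem exists_system (N m s : ℕ) [NeZero s] (M c : Fin m → ℕ) (hc : ∀ i, c i ≤ M i)
    (D : (i : Fin m) → Fin (c i) → ℕ)
    (H : (i : Fin m) → Fin (c i) → MvPolynomial (Fin (M i + 1)) ℂ)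
    (hH : ∀ i j, (H i j).IsHomogeneous (D i j)) (hB : ∀ i, Brody (H i))
    (δ : ZMod s → ℕ) (hδ : ∀ l, 2 ≤ δ l)
    (hcount : ∀ v, 1 ≤ v → v ≤ N → (v + 1) * (N - v) < ∑ i, (M i * v + c i) ∨
      (v + 1) * (N - v) + v + 2 ≤ s + ∑ i, (M i * v + c i)) :
    ∃ G : (Σ i, Fin (c i)) ⊕ ZMod s → MvPolynomial (Fin (N + s + 1)) ℂ,
      (∀ j, (G j).IsHomogeneous (Sum.elim (fun p : Σ i, Fin (c i) => D p.1 p.2) δ j)) ∧
      Brody G := by
  classical
  -- the coefficients
  set K0 : Finset ℂ := Finset.univ.biUnion fun i : Fin m => Finset.univ.biUnion fun j : Fin (c i) =>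
    (H i j).support.image (fun e => (H i j).coeff e) with hK0
  have hK0m : ∀ i j e, (H i j).coeff e ∈ cl (K0 : Set ℂ) := by
    intro i j e
    by_cases he : (H i j).coeff e = 0
    · rw [he]; exact cl_zero _
    · refine subset_cl _ ?_
      rw [Finset.mem_coe, hK0, Finset.mem_biUnion]
      refine ⟨i, Finset.mem_univ i, ?_⟩
      rw [Finset.mem_biUnion]
      refine ⟨j, Finset.mem_univ j, ?_⟩
      exact Finset.mem_image.2 ⟨e, mem_support_iff.2 he, rfl⟩
  obtain ⟨x, hx⟩ := exists_indep_over K0 ((Σ i : Fin m, Fin (M i + 1) × Fin (N + 1)) ⊕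
    ((Σ i : Fin m, Fin (c i) × Fin (M i + 1)) ⊕ (ZMod s × Fin (N + 1))))
  obtain ⟨A, hA⟩ : ∃ A : (i : Fin m) → Fin (M i + 1) → Fin (N + 1) → ℂ,
      A = fun i k j => x (Sum.inl ⟨i, (k, j)⟩) := ⟨_, rfl⟩
  obtain ⟨E, hE⟩ : ∃ E : (i : Fin m) → Fin (c i) → Fin (M i + 1) → ℂ,
      E = fun i k j => x (Sum.inr (Sum.inl ⟨i, (k, j)⟩)) := ⟨_, rfl⟩
  obtain ⟨W, hW⟩ : ∃ W : ZMod s → Fin (N + 1) → ℂ,
      W = fun k j => x (Sum.inr (Sum.inr (k, j))) := ⟨_, rfl⟩
  -- the perturbations of the blocks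
  have hp := fun i => perturb (H i) (D i) (hH i) (hB i) (E i)
  choose n1 hn1 using hp
  obtain ⟨n0, hn0⟩ : ∃ n0 : ℕ, n0 = ∑ i, n1 i + 1 := ⟨_, rfl⟩
  have hn0' : n0 ≠ 0 := by omega
  have hn0i : ∀ i, n1 i ≤ n0 := by
    intro i
    have := Finset.single_le_sum (f := n1) (fun i _ => Nat.zero_le _) (Finset.mem_univ i)
    omega
  obtain ⟨H', hH'⟩ : ∃ H' : (i : Fin m) → Fin (c i) → MvPolynomial (Fin (M i + 1)) ℂ,
      H' = fun i j => H i j + ∑ p, C (E i j p / n0) * X p ^ D i j := ⟨_, rfl⟩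
  have hH'h : ∀ i j, (H' i j).IsHomogeneous (D i j) := by
    rw [hH']
    exact fun i j => (hn1 i n0 (hn0i i)).1 j
  have hH'B : ∀ i, Brody (H' i) := by
    rw [hH']
    exact fun i => (hn1 i n0 (hn0i i)).2
  have hH'e : ∀ i j h, eval h (H' i j) = eval h (H i j) + ∑ p, E i j p / n0 * h p ^ D i j := by
    intro i j h
    rw [hH', map_add, map_sum]
    congr 1
    refine Finset.sum_congr rfl fun p _ => ?_
    rw [map_mul, eval_C, map_pow, eval_X]
  -- the forms
  set GH : (Σ i, Fin (c i)) → MvPolynomial (Fin (N + s + 1)) ℂ :=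
    fun p => bind₁ (fun k => lfx s (A p.1 k)) (H' p.1 p.2) with hGH
  have hGHe : ∀ (i : Fin m) (j : Fin (c i)) y, eval y (GH ⟨i, j⟩) =
      eval (fun k => ∑ l, A i k l * y (xx N s l)) (H' i j) := by
    intro i j y
    rw [hGH]
    have h1 : (fun k => ∑ l, A i k l * y (xx N s l)) = fun k => aeval y (lfx s (A i k)) := by
      funext k
      rw [← eval_lfx (s := s), ← coe_aeval_eq_eval]
      rfl
    rw [h1]
    change eval y (bind₁ (fun k => lfx s (A i k)) (H' i j)) = _
    rw [← coe_aeval_eq_eval, ← coe_aeval_eq_eval]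
    change aeval y (bind₁ _ (H' i j)) = _
    rw [aeval_bind₁]
    rfl
  have hGHh : ∀ p, (GH p).IsHomogeneous (D p.1 p.2) := by
    intro p
    have := hom_bind (hH'h p.1 p.2) (fun k => hom_lfx (s := s) (A p.1 k))
    rwa [one_mul] at this
  set F0 : ZMod s → MvPolynomial (Fin (N + s + 1)) ℂ := fun j =>
    X (xD N s j) ^ δ j - lfx s (W j) ^ δ j with hF0
  set Q : ZMod s → MvPolynomial (Fin (N + s + 1)) ℂ := fun j => lfx s (W (j + 1)) ^ δ j with hQ
  have hF0h : ∀ j, (F0 j).IsHomogeneous (δ j) := by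
    intro j
    have h1 := (isHomogeneous_X ℂ (xD N s j)).pow (δ j)
    have h2 := (hom_lfx (s := s) (W j)).pow (δ j)
    rw [one_mul] at h1 h2
    exact h1.sub h2
  have hQh : ∀ j, (Q j).IsHomogeneous (δ j) := by
    intro j
    have h2 := (hom_lfx (s := s) (W (j + 1))).pow (δ j)
    rwa [one_mul] at h2
  by_contra hcon
  push Not at hcon
  -- the bound for the perturbations
  have hbd := fun j : ZMod s => bounded (Q j)
  choose B hB0 hBb using hbd
  obtain ⟨B', hB'⟩ : ∃ B' : ℝ, B' = ∑ j, B j := ⟨_, rfl⟩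
  have hB'j : ∀ j, B j ≤ B' := fun j => by
    rw [hB']
    exact Finset.single_le_sum (f := B) (fun j _ => (hB0 j).le) (Finset.mem_univ j)
  have hB'0 : 0 < B' := lt_of_lt_of_le (hB0 0) (hB'j 0)
  obtain ⟨ε, hε⟩ : ∃ ε : ℕ → ℝ, ε = fun n : ℕ => 1 / ((n : ℝ) + 1) / B' := ⟨_, rfl⟩
  have hε0 : ∀ n, 0 < ε n := fun n => by rw [hε]; positivity
  have hFnh : ∀ n j, (F0 j - C ((ε n : ℝ) : ℂ) * Q j).IsHomogeneous (δ j) := by
    intro n j
    refine (hF0h j).sub ?_
    have h1 := (isHomogeneous_C (Fin (N + s + 1)) ((ε n : ℝ) : ℂ)).mul (hQh j)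
    rwa [zero_add] at h1
  obtain ⟨f, hf, hf0, hfF, hne, hHz⟩ := limit (F0 := Sum.elim GH F0)
    (Fn := fun n => Sum.elim GH fun j => F0 j - C ((ε n : ℝ) : ℂ) * Q j)
    (by
      rintro n (p | j)
      · exact ⟨_, hGHh p⟩
      · exact ⟨_, hFnh n j⟩) (by
      rintro n (p | j) u hu
      · change ‖eval u (GH p) - eval u (GH p)‖ ≤ _
        rw [sub_self, norm_zero]
        positivity
      · change ‖eval u (F0 j - C ((ε n : ℝ) : ℂ) * Q j) - eval u (F0 j)‖ ≤ _
        rw [map_sub, sub_sub_cancel_left, norm_neg, map_mul, eval_C, norm_mul, Complex.norm_real,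
          Real.norm_of_nonneg (hε0 n).le]
        have h1 : ‖eval u (Q j)‖ ≤ B' := (hBb j u hu).trans (hB'j j)
        calc ε n * ‖eval u (Q j)‖ ≤ ε n * B' := mul_le_mul_of_nonneg_left h1 (hε0 n).le
          _ = 1 / (n + 1 : ℝ) := by
              rw [hε]
              field_simp)
    (fun n hBn => hcon _ (by
      rintro (p | j)
      · exact hGHh p
      · exact hFnh n j) hBn) (by
      rintro (p | j)
      · exact ⟨_, hGHh p⟩
      · exact ⟨_, hF0h j⟩)
  -- the curve in the space of the first variables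
  obtain ⟨y, hy⟩ : ∃ y : ℂ → Fin (N + 1) → ℂ, y = fun z l => f z (xx N s l) := ⟨_, rfl⟩
  have hyd : Differentiable ℂ y := by
    rw [hy, differentiable_pi]
    exact fun i => differentiable_pi.1 hf _
  have hyH : ∀ z i j, eval (fun k => ∑ l, A i k l * y z l) (H' i j) = 0 := by
    intro z i j
    have h1 := hfF z (Sum.inl ⟨i, j⟩)
    change eval (f z) (GH ⟨i, j⟩) = 0 at h1
    rw [hGHe] at h1
    rw [hy]
    exact h1
  have hWd : ∀ j, Differentiable ℂ fun z => ∑ l, W j l * y z l := fun j =>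
    Differentiable.fun_sum fun l _ => (differentiable_pi.1 hyd l).const_mul (W j l)
  have hDe : ∀ j, ∃ ζ : ℂ, ζ ^ δ j = 1 ∧ ∀ z, f z (xD N s j) = ζ * ∑ l, W j l * y z l := by
    intro j
    refine pow_eq (by have := hδ j; omega) (differentiable_pi.1 hf _) (hWd j) fun z => ?_
    have h1 := hfF z (Sum.inr j)
    change eval (f z) (F0 j) = 0 at h1
    rw [hF0] at h1
    change eval (f z) (X (xD N s j) ^ δ j - lfx s (W j) ^ δ j) = 0 at h1
    rw [map_sub, map_pow, map_pow, eval_X, eval_lfx] at h1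
    rw [hy]
    exact sub_eq_zero.1 h1
  choose ζ hζ1 hζ using hDe
  have hy0 : ∀ z, y z ≠ 0 := by
    intro z hz
    apply hf0 z
    funext l
    rcases cover l with ⟨i, rfl⟩ | ⟨j, rfl⟩
    · have := congrFun hz i
      rw [hy] at this
      exact this
    · rw [hζ, hz]
      simp
  have hyne : ¬ ∀ z w, ∃ e : ℂ, y z = e • y w := by
    intro hcst
    apply hne
    intro z w
    obtain ⟨e, he⟩ := hcst z w
    refine ⟨e, ?_⟩
    funext l
    rcases cover l with ⟨i, rfl⟩ | ⟨j, rfl⟩
    · have := congrFun he i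
      rw [hy] at this
      exact this
    · rw [Pi.smul_apply, hζ, hζ, he, smul_eq_mul]
      have h1 : ∑ l, W j l * (e • y w) l = e * ∑ l, W j l * y w l := by
        rw [Finset.mul_sum]
        refine Finset.sum_congr rfl fun l _ => ?_
        rw [Pi.smul_apply, smul_eq_mul]
        ring
      rw [h1]
      ring
  -- the reduced basis
  obtain ⟨w, π, u, hπ, huπ, hyu, hspan, hfun⟩ := echelon y
  obtain ⟨v, rfl⟩ : ∃ v, w = v + 1 := by
    refine ⟨w - 1, ?_⟩
    have : w ≠ 0 := by
      rintro rfl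
      apply hy0 0
      rw [hyu 0]
      simp
    omega
  have hv : 1 ≤ v := by
    by_contra hv0
    have hv0' : v = 0 := by omega
    subst hv0'
    apply hyne
    intro z w
    have h1 : y w (π 0) ≠ 0 := by
      intro h
      apply hy0 w
      rw [hyu w]
      simp [h]
    refine ⟨y z (π 0) / y w (π 0), ?_⟩
    rw [hyu z, hyu w]
    simp only [Fin.sum_univ_succ, Fin.sum_univ_zero, add_zero, Fin.isValue, smul_smul]
    have h2 : (∑ a : Fin 1, y w (π a) • u a) (π 0) = y w (π 0) := by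
      simp [huπ]
    simp only [Finset.univ_unique, Fin.default_eq_zero, Fin.isValue, Finset.sum_singleton,
      Pi.smul_apply, huπ, if_true, smul_eq_mul, mul_one]
    congr 1
    field_simp
  have hvN : v ≤ N := by
    have := le_of_inj hπ
    omega
  obtain ⟨g, hg⟩ : ∃ g : ℂ → Fin (v + 1) → ℂ, g = fun z a => y z (π a) := ⟨_, rfl⟩
  have hgd : Differentiable ℂ g := by
    rw [hg, differentiable_pi]
    exact fun a => differentiable_pi.1 hyd _
  have hg0 : ∀ z, g z ≠ 0 := by
    intro z hz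
    apply hy0 z
    rw [hyu z]
    refine Finset.sum_eq_zero fun a _ => ?_
    have h1 : y z (π a) = 0 := by
      have := congrFun hz a
      rw [hg] at this
      exact this
    rw [h1, zero_smul]
  obtain ⟨lam, hlam⟩ : ∃ lam : ZMod s → Fin (v + 1) → ℂ, lam = fun j a => ∑ l, W j l * u a l :=
    ⟨_, rfl⟩
  have hdot : ∀ j z, dot (lam j) (g z) = ∑ l, W j l * y z l := by
    intro j z
    have h1 : ∀ l, y z l = ∑ a, y z (π a) * u a l := by
      intro l
      conv_lhs => rw [hyu z]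
      rw [Finset.sum_apply]
      rfl
    unfold dot
    rw [hlam, hg]
    simp only [Finset.sum_mul]
    rw [Finset.sum_comm]
    refine Finset.sum_congr rfl fun l _ => ?_
    rw [h1 l, Finset.mul_sum]
    refine Finset.sum_congr rfl fun a _ => ?_
    ring
  have hspan' : ∀ e : Fin (v + 1) → ℂ, (∀ z, dot e (g z) = 0) → e = 0 := by
    intro e he
    apply hspan
    intro z
    have := he z
    unfold dot at this
    rw [hg] at this
    exact this
  -- the chain condition
  have hchain : ∀ j, lam j ≠ 0 → ∀ z, dot (lam j) (g z) = 0 → dot (lam (j + 1)) (g z) = 0 := by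
    intro j hj z hz
    rw [hdot] at hz ⊢
    obtain ⟨z1, hz1⟩ : ∃ z1, ∑ l, W j l * y z1 l ≠ 0 := by
      by_contra hcon2
      push Not at hcon2
      exact hj (hspan' _ fun z => by rw [hdot]; exact hcon2 z)
    obtain ⟨ζ', hζ'1, hζ'⟩ := exists_other (hδ j) (hζ1 j)
    have hAe : ∀ z, eval (f z) (X (xD N s j) - C ζ' * lfx s (W j)) =
        (ζ j - ζ') * ∑ l, W j l * y z l := by
      intro z
      rw [map_sub, map_mul, eval_C, eval_X, eval_lfx, hζ, hy]
      ring
    have hAh : IsForm (X (xD N s j) - C ζ' * lfx s (W j)) := by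
      refine ⟨1, (isHomogeneous_X ℂ _).sub ?_⟩
      have h1 := (isHomogeneous_C (Fin (N + s + 1)) ζ').mul (hom_lfx (s := s) (W j))
      rwa [zero_add] at h1
    have h1 := hHz _ (lfx s (W (j + 1))) hAh ⟨1, hom_lfx _⟩ (by
      intro n a ha hA0
      have h2 := ha (Sum.inr j)
      change eval a (F0 j - C ((ε n : ℝ) : ℂ) * Q j) = 0 at h2
      rw [map_sub, map_mul, eval_C, hF0, hQ] at h2
      change eval a (X (xD N s j) ^ δ j - lfx s (W j) ^ δ j) -
        ((ε n : ℝ) : ℂ) * eval a (lfx s (W (j + 1)) ^ δ j) = 0 at h2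
      rw [map_sub, map_pow, map_pow, map_pow, eval_X] at h2
      rw [map_sub, map_mul, eval_C, eval_X, sub_eq_zero] at hA0
      rw [hA0, mul_pow, hζ'1, one_mul, sub_self, zero_sub, neg_eq_zero] at h2
      have h3 : ((ε n : ℝ) : ℂ) ≠ 0 := by exact_mod_cast (hε0 n).ne'
      exact (pow_eq_zero_iff (by have := hδ j; omega)).1 ((mul_eq_zero.1 h2).resolve_left h3))
      ⟨z1, by
        rw [hAe]
        exact mul_ne_zero (sub_ne_zero.2 hζ'.symm) hz1⟩ z (by rw [hAe, hz, mul_zero])
    rw [eval_lfx] at h1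
    rw [hy]
    exact h1
  obtain ⟨TL, hTL1, hTL2⟩ := lam_count hv lam hgd hg0 hspan' hchain
  obtain ⟨TW, hTW1, hTW2⟩ := matrix_count' hπ huπ W
  obtain ⟨Tu, hTu1, hTu2⟩ := basis_count hπ huπ
  rw [ZMod.card] at hTW1
  -- the blocks
  have hTH : ∀ i, ∃ T : Finset ℂ,
      T.card + (M i * v + c i) ≤ (M i + 1) * (N + 1) + c i * (M i + 1) ∧ ∀ S : Set ℂ,
      (T : Set ℂ) ⊆ cl S → (∀ a l, u a l ∈ cl S) →
      (∀ k e, (H i k).coeff e ∈ cl S) → (∀ k j, A i k j ∈ cl S) ∧ (∀ k p, E i k p ∈ cl S) := by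
    intro i
    have hAd : Differentiable ℂ fun z => fun k => ∑ l, A i k l * y z l := by
      rw [differentiable_pi]
      exact fun k => Differentiable.fun_sum fun l _ => (differentiable_pi.1 hyd l).const_mul _
    by_cases hzero : ∀ z, (fun k => ∑ l, A i k l * y z l) = 0
    · refine hyp_count' hπ huπ (hc i) (A i) (E i) (H i) (D i) n0 hn0' 0 0 (fun k a => ?_)
        (fun h => absurd rfl h)
      rw [Pi.zero_apply, Pi.zero_apply, mul_zero]
      exact hfun a _ fun z => congrFun (hzero z) k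
    · push Not at hzero
      obtain ⟨z0, hz0⟩ := hzero
      obtain ⟨h, hh⟩ : ∃ h : Fin (M i + 1) → ℂ, h = fun k => ∑ l, A i k l * y z0 l := ⟨_, rfl⟩
      rw [← hh] at hz0
      have hall : ∀ z, ∃ t : ℂ, (fun k => ∑ l, A i k l * y z l) = t • h := by
        intro z
        obtain ⟨h', α, β, e1, e2, -⟩ := cone_curve (H' i) (fun j => ⟨D i j, hH'h i j⟩) (hH'B i)
          (fun z => fun k => ∑ l, A i k l * y z l) hAd (fun z j => hyH z i j) z z0
        change (fun k => ∑ l, A i k l * y z l) = α • h' at e1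
        change (fun k => ∑ l, A i k l * y z0 l) = β • h' at e2
        rw [← hh] at e2
        have hβ : β ≠ 0 := by
          rintro rfl
          rw [zero_smul] at e2
          exact hz0 e2
        refine ⟨α / β, ?_⟩
        rw [e1, e2, smul_smul]
        congr 1
        field_simp
      obtain ⟨p0, hp0⟩ := Function.ne_iff.1 hz0
      have hp0' : h p0 ≠ 0 := hp0
      refine hyp_count' hπ huπ (hc i) (A i) (E i) (H i) (D i) n0 hn0' h
        (fun a => (∑ l, A i p0 l * u a l) / h p0) (fun k a => ?_) (fun _ t _ j => ?_)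
      · have h1 := hfun a (fun l => A i k l * h p0 - A i p0 l * h k) (fun z => by
          obtain ⟨t, ht⟩ := hall z
          have h2 := congrFun ht k
          have h3 := congrFun ht p0
          rw [Pi.smul_apply, smul_eq_mul] at h2 h3
          have h4 : ∑ l, (A i k l * h p0 - A i p0 l * h k) * y z l =
              (∑ l, A i k l * y z l) * h p0 - (∑ l, A i p0 l * y z l) * h k := by
            rw [Finset.sum_mul, Finset.sum_mul, ← Finset.sum_sub_distrib]
            refine Finset.sum_congr rfl fun l _ => ?_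
            ring
          rw [h4, h2, h3]
          ring)
        have h4 : ∑ l, (A i k l * h p0 - A i p0 l * h k) * u a l =
            (∑ l, A i k l * u a l) * h p0 - (∑ l, A i p0 l * u a l) * h k := by
          rw [Finset.sum_mul, Finset.sum_mul, ← Finset.sum_sub_distrib]
          refine Finset.sum_congr rfl fun l _ => ?_
          ring
        rw [h4] at h1
        change _ = (∑ l, A i p0 l * u a l) / h p0 * h k
        rw [div_mul_eq_mul_div, eq_div_iff hp0']
        linear_combination h1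
      · rw [← hH'e]
        have h5 := hyH z0 i j
        rw [← hh] at h5
        exact eval_smul' ⟨D i j, hH'h i j⟩ h5 t
  choose TH hTH1 hTH2 using hTH
  obtain ⟨Nv, hNv⟩ : ∃ Nv, N = v + Nv := ⟨N - v, by omega⟩
  have eNv : N + 1 - (v + 1) = Nv := by omega
  have eNv2 : N - v = Nv := by omega
  rw [eNv] at hTW1 hTu1
  have hcnt := hcount v hv hvN
  rw [eNv2] at hcnt
  -- the linear forms, in the two cases
  obtain ⟨TX, hTX1, hTX2⟩ : ∃ T : Finset ℂ,
      T.card + (v + 1) * Nv < s * (N + 1) + ∑ i, (M i * v + c i) ∧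
      ∀ S : Set ℂ, (T : Set ℂ) ⊆ cl S → (∀ a l, u a l ∈ cl S) → ∀ k l, W k l ∈ cl S := by
    rcases hcnt with h | h
    · refine ⟨((Finset.univ : Finset (ZMod s)) ×ˢ (Finset.univ : Finset (Fin (N + 1)))).image
        (fun p => W p.1 p.2), ?_, fun S hS _ k l => hS ?_⟩
      · have h1 := Finset.card_image_le
          (s := (Finset.univ : Finset (ZMod s)) ×ˢ (Finset.univ : Finset (Fin (N + 1))))
          (f := fun p => W p.1 p.2)
        rw [Finset.card_product, Finset.card_univ, Finset.card_univ, Fintype.card_fin,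
          ZMod.card] at h1
        omega
      · rw [Finset.mem_coe]
        exact Finset.mem_image.2 ⟨(k, l), Finset.mem_product.2
          ⟨Finset.mem_univ k, Finset.mem_univ l⟩, rfl⟩
    · refine ⟨TW ∪ TL, ?_, fun S hS hu => ?_⟩
      · have h1 := Finset.card_union_le TW TL
        have h2 : s * (N + 1) = s * Nv + s * v + s := by
          rw [hNv]
          ring
        rw [h2]
        omega
      · rw [Finset.coe_union, Set.union_subset_iff] at hS
        refine hTW2 S hS.1 hu fun k a => ?_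
        have h1 := hTL2 S hS.2 k a
        rw [hlam] at h1
        exact h1
  -- the count
  set T : Finset ℂ := Tu ∪ (Finset.univ.biUnion TH ∪ TX) with hT
  have hTc : T.card ≤ (v + 1) * Nv + (∑ i, (TH i).card + TX.card) := by
    refine (Finset.card_union_le _ _).trans (add_le_add hTu1 ?_)
    exact (Finset.card_union_le _ _).trans (add_le_add Finset.card_biUnion_le le_rfl)
  set S : Set ℂ := (K0 : Set ℂ) ∪ T with hS
  have hTS : (T : Set ℂ) ⊆ cl S := fun y hy => subset_cl _ (Or.inr hy)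
  have hKS : ∀ i j e, (H i j).coeff e ∈ cl S := fun i j e =>
    cl_mono (Set.subset_union_left) (hK0m i j e)
  have hTuS : (Tu : Set ℂ) ⊆ cl S := fun y hy => hTS (by
    rw [Finset.mem_coe, hT]
    exact Finset.mem_union_left _ hy)
  have hus : ∀ a l, u a l ∈ cl S := hTu2 S hTuS
  have hTHS : ∀ i, (TH i : Set ℂ) ⊆ cl S := fun i y hy => hTS (by
    rw [Finset.mem_coe, hT]
    exact Finset.mem_union_right _ (Finset.mem_union_left _
      (Finset.mem_biUnion.2 ⟨i, Finset.mem_univ i, hy⟩)))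
  have hTXS : (TX : Set ℂ) ⊆ cl S := fun y hy => hTS (by
    rw [Finset.mem_coe, hT]
    exact Finset.mem_union_right _ (Finset.mem_union_right _ hy))
  have hall := hx T (by
    rintro (⟨i, k, j⟩ | ⟨i, k, j⟩ | ⟨k, j⟩)
    · have h1 := (hTH2 i S (hTHS i) hus (hKS i)).1 k j
      rw [hA] at h1
      exact h1
    · have h1 := (hTH2 i S (hTHS i) hus (hKS i)).2 k j
      rw [hE] at h1
      exact h1
    · have h1 := hTX2 S hTXS hus k j
      rw [hW] at h1
      exact h1)
  rw [Fintype.card_sum, Fintype.card_sum, Fintype.card_sigma, Fintype.card_sigma,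
    Fintype.card_prod, ZMod.card] at hall
  simp only [Fintype.card_prod, Fintype.card_fin] at hall
  have g1 : ∑ i, ((TH i).card + (M i * v + c i)) ≤
      ∑ i, ((M i + 1) * (N + 1) + c i * (M i + 1)) := Finset.sum_le_sum fun i _ => hTH1 i
  rw [Finset.sum_add_distrib, Finset.sum_add_distrib (f := fun i => (M i + 1) * (N + 1))] at g1
  omega

end Pool.Agent.H20.CX
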